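import Mathlib

open Metric Set Filter Polynomial
open scoped Topology ComplexConjugate

namespace Pool.Agent.H29.CS

/-- conjugate reflection of a polynomial, `star N U (z) = z^N conj (U (1 / conj z))`. -/
noncomputable def cstar (N : ℕ) (U : Polynomial ℂ) : Polynomial ℂ :=
  (U.map (starRingEnd ℂ)).reflect N

theorem cstar_mul {M N : ℕ} {U V : Polynomial ℂ} (hU : U.natDegree ≤ M) (hV : V.natDegree ≤ N) :
    cstar (M + N) (U * V) = cstar M U * cstar N V := by
  unfold cstar
  rw [Polynomial.map_mul, Polynomial.reflect_mul]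
  · exact le_trans (Polynomial.natDegree_map_le) hU
  · exact le_trans (Polynomial.natDegree_map_le) hV

theorem natDegree_cstar_le {N : ℕ} {U : Polynomial ℂ} (hU : U.natDegree ≤ N) :
    (cstar N U).natDegree ≤ N := by
  unfold cstar
  refine le_trans Polynomial.natDegree_reflect_le ?_
  exact max_le le_rfl (le_trans (Polynomial.natDegree_map_le) hU)

theorem cstar_cstar (N : ℕ) (U : Polynomial ℂ) : cstar N (cstar N U) = U := by
  unfold cstar
  rw [← Polynomial.reflect_map, Polynomial.reflect_reflect, Polynomial.map_map]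
  have : (starRingEnd ℂ).comp (starRingEnd ℂ) = RingHom.id ℂ := by
    ext x; simp
  rw [this, Polynomial.map_id]

theorem cstar_C_mul (N : ℕ) (c : ℂ) (U : Polynomial ℂ) :
    cstar N (C c * U) = C (conj c) * cstar N U := by
  unfold cstar
  rw [Polynomial.map_mul, Polynomial.map_C, Polynomial.reflect_C_mul]

theorem cstar_ne_zero {N : ℕ} {U : Polynomial ℂ} (h : U ≠ 0) : cstar N U ≠ 0 := by
  intro h2
  apply h
  rw [← cstar_cstar N U, h2]
  simp [cstar]

theorem cstar_coeff (N : ℕ) (U : Polynomial ℂ) (k : ℕ) (hk : k ≤ N) :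
    (cstar N U).coeff k = conj (U.coeff (N - k)) := by
  unfold cstar
  rw [Polynomial.coeff_reflect, Polynomial.revAt_le hk, Polynomial.coeff_map]

/-- the linear factor `1 - conj a z` -/
noncomputable def lin (a : ℂ) : Polynomial ℂ := 1 - C (conj a) * X

theorem lin_ne_zero (a : ℂ) : lin a ≠ 0 := by
  intro h
  have := congrArg (fun p => Polynomial.eval 0 p) h
  simp [lin] at this

theorem natDegree_lin_le (a : ℂ) : (lin a).natDegree ≤ 1 := by
  unfold lin
  refine le_trans (Polynomial.natDegree_sub_le _ _) ?_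
  refine max_le (by simp) ?_
  exact le_trans (Polynomial.natDegree_C_mul_le _ _) Polynomial.natDegree_X_le

theorem cstar_lin (a : ℂ) : cstar 1 (lin a) = X - C a := by
  unfold cstar lin
  simp only [Polynomial.map_sub, Polynomial.map_one, Polynomial.map_mul, Polynomial.map_C,
    Polynomial.map_X, Polynomial.reflect_sub, Polynomial.reflect_C_mul, Polynomial.reflect_one_X,
    mul_one, Complex.conj_conj]
  rw [Polynomial.reflect_one]
  simp

theorem lin_eval (a z : ℂ) : (lin a).eval z = 1 - conj a * z := by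
  simp [lin]

theorem norm_lin {a z : ℂ} (hz : ‖z‖ = 1) : ‖(lin a).eval z‖ = ‖z - a‖ := by
  rw [lin_eval]
  have h1 : z * conj z = 1 := by
    rw [Complex.mul_conj, Complex.normSq_eq_norm_sq, hz]; norm_num
  have h2 : 1 - conj a * z = z * conj (z - a) := by
    rw [map_sub, mul_sub, h1]; ring
  rw [h2, norm_mul, hz, one_mul, RCLike.norm_conj]

theorem cstar_lin_pow (a : ℂ) (m : ℕ) :
    (lin a ^ m).natDegree ≤ m ∧ cstar m (lin a ^ m) = (X - C a) ^ m := by
  induction m with
  | zero =>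
    refine ⟨by simp, ?_⟩
    unfold cstar
    simp [Polynomial.reflect_one]
  | succ m ih =>
    refine ⟨?_, ?_⟩
    · rw [pow_succ]
      exact le_trans Polynomial.natDegree_mul_le (add_le_add ih.1 (natDegree_lin_le a))
    · rw [pow_succ, cstar_mul ih.1 (natDegree_lin_le a), ih.2, cstar_lin, pow_succ]

theorem closure_D : closure (ball (0 : ℂ) 1) = closedBall 0 1 := closure_ball 0 one_ne_zero

/-- removing one zero -/
theorem dcc_dslope {u : ℂ → ℂ} (hu : DiffContOnCl ℂ u (ball 0 1)) {a : ℂ}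
    (ha : a ∈ ball (0 : ℂ) 1) : DiffContOnCl ℂ (dslope u a) (ball 0 1) := by
  have hn : ball (0 : ℂ) 1 ∈ 𝓝 a := isOpen_ball.mem_nhds ha
  refine ⟨(Complex.differentiableOn_dslope hn).2 hu.differentiableOn, ?_⟩
  refine (continuousOn_dslope (mem_of_superset hn subset_closure)).2 ⟨hu.continuousOn, ?_⟩
  exact hu.differentiableOn.differentiableAt hn

theorem analyticAt_of_dcc {u : ℂ → ℂ} (hu : DiffContOnCl ℂ u (ball 0 1)) {a : ℂ}
    (ha : a ∈ ball (0 : ℂ) 1) : AnalyticAt ℂ u a :=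
  hu.differentiableOn.analyticAt (isOpen_ball.mem_nhds ha)

/-- removing a zero with its full multiplicity -/
theorem remove_zero (n : ℕ) : ∀ {u : ℂ → ℂ} (_ : DiffContOnCl ℂ u (ball 0 1)) {a : ℂ}
    (_ : a ∈ ball (0 : ℂ) 1) (_ : analyticOrderAt u a = n),
    ∃ w : ℂ → ℂ, DiffContOnCl ℂ w (ball 0 1) ∧ w a ≠ 0 ∧ ∀ z, u z = (z - a) ^ n * w z := by
  induction n with
  | zero =>
    intro u hu a ha h
    refine ⟨u, hu, ?_, by simp⟩
    exact ((analyticAt_of_dcc hu ha).analyticOrderAt_eq_zero).1 (by simpa using h)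
  | succ n ih =>
    intro u hu a ha h
    have hua : u a = 0 := by
      rw [← (analyticAt_of_dcc hu ha).analyticOrderAt_ne_zero, h]
      simp
    have hw := dcc_dslope hu ha
    have heq : u = (fun z => z - a) * dslope u a := by
      funext z
      have := sub_smul_dslope u a z
      rw [hua, sub_zero, smul_eq_mul] at this
      rw [Pi.mul_apply, this]
    have hord : analyticOrderAt (dslope u a) a = n := by
      have h1 : analyticOrderAt u a = analyticOrderAt (fun z : ℂ => z - a) a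
          + analyticOrderAt (dslope u a) a := by
        conv_lhs => rw [heq]
        exact analyticOrderAt_mul (by fun_prop) (analyticAt_of_dcc hw ha)
      have h2 : analyticOrderAt (fun z : ℂ => z - a) a = 1 := by
        have h3 : AnalyticAt ℂ (fun z : ℂ => z - a) a := by fun_prop
        have := (h3.analyticOrderAt_eq_natCast (n := 1)).2
          ⟨fun _ => 1, analyticAt_const, one_ne_zero, Filter.Eventually.of_forall (fun z => by simp)⟩
        simpa using this
      rw [h1, h2] at h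
      have h4 : (1 : ℕ∞) + analyticOrderAt (dslope u a) a = 1 + n := by
        rw [h]; push_cast; ring
      exact ENat.add_right_injective_of_ne_top (by simp) h4
    obtain ⟨w, hw1, hw2, hw3⟩ := ih hw ha hord
    refine ⟨w, hw1, hw2, fun z => ?_⟩
    have := sub_smul_dslope u a z
    rw [hua, sub_zero, smul_eq_mul] at this
    rw [← this, hw3]
    ring

theorem order_ne_top {u : ℂ → ℂ} (hu : DiffContOnCl ℂ u (ball 0 1))
    (h0 : ∀ z, ‖z‖ = 1 → u z ≠ 0) {a : ℂ} (ha : a ∈ ball (0 : ℂ) 1) :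
    ¬ (∃ᶠ z in 𝓝[≠] a, u z = 0) := by
  intro hf
  have hA : AnalyticOnNhd ℂ u (ball 0 1) := fun z hz => analyticAt_of_dcc hu hz
  have h1 : EqOn u 0 (ball 0 1) :=
    hA.eqOn_zero_of_preconnected_of_frequently_eq_zero (convex_ball 0 1).isPreconnected ha hf
  have h2 : EqOn u 0 (closure (ball 0 1)) :=
    h1.of_subset_closure hu.continuousOn continuousOn_const subset_closure le_rfl
  have h3 : (1 : ℂ) ∈ closure (ball (0 : ℂ) 1) := by
    rw [closure_D]; simp
  exact h0 1 (by simp) (h2 h3)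

theorem zeros_finite {u : ℂ → ℂ} (hu : DiffContOnCl ℂ u (ball 0 1))
    (h0 : ∀ z, ‖z‖ = 1 → u z ≠ 0) : {z | z ∈ ball (0 : ℂ) 1 ∧ u z = 0}.Finite := by
  by_contra hinf
  have hinf : {z | z ∈ ball (0 : ℂ) 1 ∧ u z = 0}.Infinite := hinf
  have hc : ContinuousOn u (closedBall 0 1) := by
    rw [← closure_D]; exact hu.continuousOn
  have hK : IsCompact (closedBall (0 : ℂ) 1 ∩ u ⁻¹' {0}) :=
    (isCompact_closedBall 0 1).of_isClosed_subset
      (hc.preimage_isClosed_of_isClosed isClosed_closedBall isClosed_singleton) inter_subset_left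
  obtain ⟨x, hx, hacc⟩ := hinf.exists_accPt_of_subset_isCompact hK
    (fun z hz => ⟨ball_subset_closedBall hz.1, hz.2⟩)
  have hxb : x ∈ ball (0 : ℂ) 1 := by
    rw [mem_ball_zero_iff]
    have h1 : ‖x‖ ≤ 1 := by simpa using hx.1
    refine lt_of_le_of_ne h1 (fun h => h0 x h hx.2)
  refine order_ne_top hu h0 hxb ?_
  rw [accPt_iff_frequently] at hacc
  rw [frequently_nhdsWithin_iff]
  exact hacc.mono (fun z hz => ⟨hz.2.2, hz.1⟩)

/-- factoring out all the zeros -/
theorem factor_all (k : ℕ) : ∀ {u : ℂ → ℂ} (_ : DiffContOnCl ℂ u (ball 0 1))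
    (_ : ∀ z, ‖z‖ = 1 → u z ≠ 0) (_ : {z | z ∈ ball (0 : ℂ) 1 ∧ u z = 0}.ncard = k),
    ∃ (N : ℕ) (U : Polynomial ℂ) (w : ℂ → ℂ), U ≠ 0 ∧ U.natDegree ≤ N ∧
      DiffContOnCl ℂ w (ball 0 1) ∧ (∀ z ∈ closedBall (0 : ℂ) 1, w z ≠ 0) ∧
      (∀ z, ‖z‖ = 1 → ‖w z‖ = ‖u z‖) ∧ ∀ z, u z * U.eval z = w z * (cstar N U).eval z := by
  induction k with
  | zero =>
    intro u hu h0 hk
    refine ⟨0, 1, u, one_ne_zero, by simp, hu, ?_, fun _ _ => rfl, fun z => ?_⟩
    · intro z hz hz0
      have h1 : ‖z‖ ≤ 1 := by simpa using hz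
      rcases h1.lt_or_eq with h | h
      · have hmem : z ∈ {z | z ∈ ball (0 : ℂ) 1 ∧ u z = 0} := ⟨by simpa using h, hz0⟩
        rw [(Set.ncard_eq_zero (zeros_finite hu h0)).1 hk] at hmem
        exact hmem
      · exact h0 z h hz0
    · simp [cstar, Polynomial.reflect_one]
  | succ k ih =>
    intro u hu h0 hk
    have hne : {z | z ∈ ball (0 : ℂ) 1 ∧ u z = 0}.Nonempty := by
      rw [Set.nonempty_iff_ne_empty]
      intro h
      rw [h, Set.ncard_empty] at hk
      omega
    obtain ⟨a, ha, hua⟩ := hne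
    have hA := analyticAt_of_dcc hu ha
    have htop : analyticOrderAt u a ≠ ⊤ := by
      intro h
      rw [analyticOrderAt_eq_top] at h
      exact order_ne_top hu h0 ha (h.filter_mono nhdsWithin_le_nhds).frequently
    obtain ⟨m, hm⟩ := ENat.ne_top_iff_exists.1 htop
    obtain ⟨w, hw, hwa, hwu⟩ := remove_zero m hu ha hm.symm
    have hm0 : m ≠ 0 := by
      intro h
      rw [h] at hwu
      exact hwa (by rw [← hua, hwu a]; simp)
    have hw0 : ∀ z, ‖z‖ = 1 → w z ≠ 0 := by
      intro z hz hwz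
      apply h0 z hz
      rw [hwu z, hwz, mul_zero]
    have hset : {z | z ∈ ball (0 : ℂ) 1 ∧ w z = 0} = {z | z ∈ ball (0 : ℂ) 1 ∧ u z = 0} \ {a} := by
      ext z
      simp only [mem_ofPred_eq, Set.mem_sdiff, mem_singleton_iff]
      constructor
      · rintro ⟨h1, h2⟩
        refine ⟨⟨h1, by rw [hwu z, h2, mul_zero]⟩, ?_⟩
        rintro rfl
        exact hwa h2
      · rintro ⟨⟨h1, h2⟩, h3⟩
        refine ⟨h1, ?_⟩
        rw [hwu z] at h2
        rcases mul_eq_zero.1 h2 with h | h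
        · exact absurd (sub_eq_zero.1 (pow_eq_zero_iff hm0 |>.1 h)) h3
        · exact h
    have hcard : {z | z ∈ ball (0 : ℂ) 1 ∧ w z = 0}.ncard = k := by
      have hmem : a ∈ {z | z ∈ ball (0 : ℂ) 1 ∧ u z = 0} := ⟨ha, hua⟩
      rw [hset, Set.ncard_sdiff_singleton_of_mem hmem, hk]
      simp
    obtain ⟨N, U, v, hU0, hUd, hv, hv0, hvn, hvw⟩ := ih hw hw0 hcard
    obtain ⟨hl1, hl2⟩ := cstar_lin_pow a m
    refine ⟨N + m, U * lin a ^ m, fun z => (lin a ^ m).eval z * v z, ?_, ?_, ?_, ?_, ?_, ?_⟩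
    · exact mul_ne_zero hU0 (pow_ne_zero _ (lin_ne_zero a))
    · exact le_trans Polynomial.natDegree_mul_le (add_le_add hUd hl1)
    · have h1 : DiffContOnCl ℂ (fun z => (lin a ^ m).eval z) (ball 0 1) :=
        (Polynomial.differentiable _).diffContOnCl
      exact h1.smul hv
    · intro z hz
      refine mul_ne_zero ?_ (hv0 z hz)
      rw [Polynomial.eval_pow]
      apply pow_ne_zero
      rw [lin_eval]
      intro h
      have h1 : conj a * z = 1 := (sub_eq_zero.1 h).symm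
      have h2 : ‖a‖ * ‖z‖ = 1 := by
        rw [← RCLike.norm_conj a, ← norm_mul, h1, norm_one]
      have h3 : ‖z‖ ≤ 1 := by simpa using hz
      have h4 : ‖a‖ < 1 := by simpa using ha
      nlinarith [norm_nonneg a, norm_nonneg z]
    · intro z hz
      rw [norm_mul, hvn z hz, Polynomial.eval_pow, norm_pow, norm_lin hz, hwu z, norm_mul, norm_pow]
    · intro z
      rw [cstar_mul hUd hl1, hl2, Polynomial.eval_mul, Polynomial.eval_mul, hwu z]
      have := hvw z
      simp only [Polynomial.eval_pow, Polynomial.eval_sub, Polynomial.eval_X, Polynomial.eval_C]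
      linear_combination (z - a) ^ m * (Polynomial.eval z (lin a)) ^ m * this

/-- two zero free functions of the disc algebra with equal moduli on the circle are proportional -/
theorem const_of_norm_eq {u v : ℂ → ℂ} (hu : DiffContOnCl ℂ u (ball 0 1))
    (hv : DiffContOnCl ℂ v (ball 0 1)) (hu0 : ∀ z ∈ closedBall (0 : ℂ) 1, u z ≠ 0)
    (hv0 : ∀ z ∈ closedBall (0 : ℂ) 1, v z ≠ 0) (h : ∀ z, ‖z‖ = 1 → ‖u z‖ = ‖v z‖) :
    ∃ c : ℂ, ‖c‖ = 1 ∧ ∀ z ∈ closedBall (0 : ℂ) 1, u z = c * v z := by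
  have key : ∀ {u v : ℂ → ℂ}, DiffContOnCl ℂ u (ball 0 1) → DiffContOnCl ℂ v (ball 0 1) →
      (∀ z ∈ closedBall (0 : ℂ) 1, u z ≠ 0) → (∀ z ∈ closedBall (0 : ℂ) 1, v z ≠ 0) →
      (∀ z, ‖z‖ = 1 → ‖u z‖ = ‖v z‖) → DiffContOnCl ℂ (fun z => (v z)⁻¹ • u z) (ball 0 1) ∧
      ∀ z ∈ closedBall (0 : ℂ) 1, ‖(v z)⁻¹ • u z‖ ≤ 1 := by
    intro u v hu hv hu0 hv0 h
    have h1 : DiffContOnCl ℂ (fun z => (v z)⁻¹ • u z) (ball 0 1) := by
      refine DiffContOnCl.smul ?_ hu
      exact hv.inv (fun z hz => hv0 z (by rwa [closure_D] at hz))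
    refine ⟨h1, fun z hz => ?_⟩
    refine Complex.norm_le_of_forall_mem_frontier_norm_le isBounded_ball h1 ?_
      (by rwa [closure_D])
    intro y hy
    rw [frontier_ball (0 : ℂ) one_ne_zero, mem_sphere_zero_iff_norm] at hy
    rw [norm_smul, norm_inv, h y hy, inv_mul_cancel₀]
    rw [norm_ne_zero_iff]
    exact hv0 y (by simp [hy])
  obtain ⟨q1, q2⟩ := key hu hv hu0 hv0 h
  obtain ⟨p1, p2⟩ := key hv hu hv0 hu0 (fun z hz => (h z hz).symm)
  have hn : ∀ z ∈ closedBall (0 : ℂ) 1, ‖(v z)⁻¹ • u z‖ = 1 := by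
    intro z hz
    refine le_antisymm (q2 z hz) ?_
    have h1 := p2 z hz
    rw [norm_smul, norm_inv] at h1 ⊢
    have hu1 : 0 < ‖u z‖ := norm_pos_iff.2 (hu0 z hz)
    have hv1 : 0 < ‖v z‖ := norm_pos_iff.2 (hv0 z hz)
    rw [inv_mul_le_iff₀ hu1, mul_one] at h1
    rw [le_inv_mul_iff₀ hv1, mul_one]
    exact h1
  have h0 : (0 : ℂ) ∈ ball (0 : ℂ) 1 := by simp
  have hmax : IsMaxOn (norm ∘ fun z => (v z)⁻¹ • u z) (ball 0 1) 0 := by
    intro z hz
    simp only [mem_ofPred_eq, Function.comp_apply]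
    rw [hn z (ball_subset_closedBall hz), hn 0 (ball_subset_closedBall h0)]
  have hE := Complex.eqOn_closure_of_isPreconnected_of_isMaxOn_norm
    (convex_ball (0 : ℂ) 1).isPreconnected isOpen_ball q1 h0 hmax
  refine ⟨(v 0)⁻¹ • u 0, hn 0 (ball_subset_closedBall h0), fun z hz => ?_⟩
  have h2 := hE (by rwa [closure_D] : z ∈ closure (ball (0 : ℂ) 1))
  simp only [Function.const_apply] at h2
  have hv1 := hv0 z hz
  rw [← h2, smul_eq_mul]
  field_simp

/-- The finite Blaschke lemma: two functions of the disc algebra with equal moduli and without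
zeros on the circle satisfy `u U = v U^*` for a polynomial `U ≠ 0`. -/
theorem blaschke {u v : ℂ → ℂ} (hu : DiffContOnCl ℂ u (ball 0 1))
    (hv : DiffContOnCl ℂ v (ball 0 1)) (h0 : ∀ z, ‖z‖ = 1 → u z ≠ 0)
    (h : ∀ z, ‖z‖ = 1 → ‖u z‖ = ‖v z‖) :
    ∃ (N : ℕ) (U : Polynomial ℂ), U ≠ 0 ∧ U.natDegree ≤ N ∧
      ∀ z ∈ closedBall (0 : ℂ) 1, u z * U.eval z = v z * (cstar N U).eval z := by
  have h0v : ∀ z, ‖z‖ = 1 → v z ≠ 0 := by
    intro z hz hvz
    have := h z hz
    rw [hvz, norm_zero, norm_eq_zero] at this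
    exact h0 z hz this
  obtain ⟨M, U, f, hU0, hUd, hf, hf0, hfn, hfu⟩ := factor_all _ hu h0 rfl
  obtain ⟨N, V, g, hV0, hVd, hg, hg0, hgn, hgv⟩ := factor_all _ hv h0v rfl
  obtain ⟨c, hc, hfg⟩ := const_of_norm_eq hf hg hf0 hg0
    (fun z hz => by rw [hfn z hz, hgn z hz, h z hz])
  -- a square root of c
  obtain ⟨d, hd⟩ : ∃ d : ℂ, d ^ 2 = c := IsAlgClosed.exists_pow_nat_eq c (by norm_num)
  have hd1 : ‖d‖ = 1 := by
    have : ‖d‖ ^ 2 = 1 := by rw [← norm_pow, hd, hc]
    have h3 := norm_nonneg d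
    nlinarith [this, h3]
  have hdd : d * conj d = 1 := by
    rw [Complex.mul_conj, Complex.normSq_eq_norm_sq, hd1]; norm_num
  have hd0 : d ≠ 0 := by
    intro hh
    rw [hh] at hdd
    simp at hdd
  refine ⟨M + N, C (conj d) * (U * cstar N V), ?_, ?_, ?_⟩
  · refine mul_ne_zero ?_ (mul_ne_zero hU0 (cstar_ne_zero hV0))
    rw [Ne, Polynomial.C_eq_zero]
    intro hh
    apply hd0
    rw [← Complex.conj_conj d, hh, map_zero]
  · refine le_trans (Polynomial.natDegree_C_mul_le _ _) ?_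
    exact le_trans Polynomial.natDegree_mul_le (add_le_add hUd (natDegree_cstar_le hVd))
  · intro z hz
    rw [cstar_C_mul, cstar_mul hUd (natDegree_cstar_le hVd), cstar_cstar, Complex.conj_conj]
    simp only [Polynomial.eval_mul, Polynomial.eval_C]
    have e1 := hfu z
    have e2 := hgv z
    have e3 := hfg z hz
    rw [e3] at e1
    rw [← hd] at e1
    linear_combination (conj d * Polynomial.eval z (cstar N V)) * e1
      - (d * Polynomial.eval z (cstar M U)) * e2
      + d * g z * Polynomial.eval z (cstar M U) * Polynomial.eval z (cstar N V) * hdd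

/-- the same with any larger number `N' ≥ N`, in particular an even one -/
theorem blaschke_succ {u v : ℂ → ℂ} {N : ℕ} {U : Polynomial ℂ} (hU0 : U ≠ 0)
    (hUd : U.natDegree ≤ N) {S : Set ℂ}
    (h : ∀ z ∈ S, u z * U.eval z = v z * (cstar N U).eval z) :
    ∃ V : Polynomial ℂ, V ≠ 0 ∧ V.natDegree ≤ N + 1 ∧
      ∀ z ∈ S, u z * V.eval z = v z * (cstar (N + 1) V).eval z := by
  have h1 : (1 + X : Polynomial ℂ).natDegree ≤ 1 := by
    refine le_trans (Polynomial.natDegree_add_le _ _) ?_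
    simp
  have h2 : cstar 1 (1 + X : Polynomial ℂ) = X + 1 := by
    unfold cstar
    simp [Polynomial.reflect_add, Polynomial.reflect_one]
  have h3 : (1 + X : Polynomial ℂ) ≠ 0 := by
    intro hh
    have := congrArg (fun p => Polynomial.eval 0 p) hh
    simp at this
  refine ⟨U * (1 + X), mul_ne_zero hU0 h3,
    le_trans Polynomial.natDegree_mul_le (add_le_add hUd h1), fun z hz => ?_⟩
  rw [cstar_mul hUd h1, h2]
  simp only [Polynomial.eval_mul, Polynomial.eval_add, Polynomial.eval_X, Polynomial.eval_one]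
  linear_combination (1 + z) * h z hz

theorem blaschke_le {u v : ℂ → ℂ} {N M : ℕ} (hNM : N ≤ M) {S : Set ℂ}
    (h : ∃ U : Polynomial ℂ, U ≠ 0 ∧ U.natDegree ≤ N ∧
      ∀ z ∈ S, u z * U.eval z = v z * (cstar N U).eval z) :
    ∃ V : Polynomial ℂ, V ≠ 0 ∧ V.natDegree ≤ M ∧
      ∀ z ∈ S, u z * V.eval z = v z * (cstar M V).eval z := by
  induction M, hNM using Nat.le_induction with
  | base => exact h
  | succ M _ ih =>
    obtain ⟨V, h1, h2, h3⟩ := ih
    exact blaschke_succ h1 h2 h3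

end Pool.Agent.H29.CS
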